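import Pool.Agent.Q83.Psi.Tree
import Pool.Agent.Helper704.FT

/-!
Bounds for the tree operator.
-/

set_option autoImplicit false
open MeasureTheory Filter Topology Set
open scoped ENNReal NNReal Real
open Pool.Agent.Helper704

namespace Q83.Psi

section
variable {b : ℝ} (hb : 1 / 8 < b) (hb2 : b ≤ 1 / 6)

/-- The number of upper neighbours. -/
noncomputable def cc (b : ℝ) : ℝ → ℝ≥0∞ := cw b fun _ => 1

lemma measurable_cc (b : ℝ) : Measurable (cc b) := measurable_cw b _ measurable_const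

lemma pow_add (j : ℤ) (k : ℕ) : (2 : ℝ) ^ (j + k) = 2 ^ k * 2 ^ j := by
  rw [zpow_add₀ (by norm_num), zpow_natCast]
  ring

include hb in
lemma cc_le (y : ℝ) (hy : 0 < y) : cc b y ≤ 2 := by
  set n := lev y with hn
  have hyn := mem_An_lev y hy
  rw [← hn] at hyn
  unfold cc cw
  rw [tsum_eq_sum (s := {n + 1, n + 2})]
  · rw [Finset.sum_pair (by omega)]
    calc _ ≤ (1 : ℝ≥0∞) + 1 := by
          gcongr <;> exact indicator_le_self' (fun _ _ => zero_le_one) _ |>.trans le_rfl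
      _ = 2 := by norm_num
  · intro j hj
    apply indicator_of_notMem
    intro h
    apply hj
    have h1 : (2 : ℝ) ^ (n - 1) < 2 ^ (j - 1) := hyn.1.trans h.2
    rw [zpow_lt_zpow_iff_right₀ (by norm_num)] at h1
    have h2 : (2 : ℝ) ^ j * b < 2 ^ n := lt_of_lt_of_le h.1 hyn.2
    have h3 : (2 : ℝ) ^ j < 2 ^ (n + 3) := by
      rw [show (3 : ℤ) = ((3 : ℕ) : ℤ) by norm_num, pow_add]
      have : (0 : ℝ) < 2 ^ j := by positivity
      nlinarith
    rw [zpow_lt_zpow_iff_right₀ (by norm_num)] at h3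
    simp only [Finset.mem_insert, Finset.mem_singleton]
    omega

lemma le_cw (w : ℝ → ℝ≥0∞) (y : ℝ) (j : ℤ) (h1 : 2 ^ j * b < y) (h2 : y < (2 : ℝ) ^ (j - 1)) :
    w (2 ^ j - y) ≤ cw b w y := by
  unfold cw
  refine le_trans (le_of_eq ?_) (ENNReal.le_tsum j)
  rw [indicator_of_mem (show y ∈ Ioo (2 ^ j * b) ((2 : ℝ) ^ (j - 1)) from ⟨h1, h2⟩)]

lemma le_cw2 (w : ℝ → ℝ≥0∞) (y : ℝ) (j j' : ℤ) (hj : j ≠ j') (h1 : 2 ^ j * b < y)
    (h2 : y < (2 : ℝ) ^ (j - 1)) (h1' : 2 ^ j' * b < y) (h2' : y < (2 : ℝ) ^ (j' - 1)) :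
    w (2 ^ j - y) + w (2 ^ j' - y) ≤ cw b w y := by
  unfold cw
  refine le_trans (le_of_eq ?_) (ENNReal.sum_le_tsum {j, j'})
  rw [Finset.sum_pair hj,
    indicator_of_mem (show y ∈ Ioo (2 ^ j * b) ((2 : ℝ) ^ (j - 1)) from ⟨h1, h2⟩),
    indicator_of_mem (show y ∈ Ioo (2 ^ j' * b) ((2 : ℝ) ^ (j' - 1)) from ⟨h1', h2'⟩)]

include hb2 in
lemma cc2_ge (y : ℝ) (hy : 0 < y) (h1 : ∀ n : ℤ, y ≠ 2 ^ n) (h2 : ∀ n : ℤ, y ≠ 4 * b * 2 ^ n) :
    2 ≤ cw b (cc b) y := by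
  set n := lev y with hn
  have hyn := mem_An_lev y hy
  rw [← hn] at hyn
  obtain ⟨P, hP⟩ : ∃ P : ℝ, P = 2 ^ (n - 1) := ⟨_, rfl⟩
  have hP0 : 0 < P := by rw [hP]; positivity
  have e : ∀ k : ℕ, (2 : ℝ) ^ (n - 1 + k) = 2 ^ k * P := fun k => by rw [pow_add, hP]
  have e0 : (2 : ℝ) ^ n = 2 * P := by
    have := e 1
    rw [show n - 1 + ((1 : ℕ) : ℤ) = n by push_cast; ring] at this
    rw [this]; ring
  have e1 : (2 : ℝ) ^ (n + 1) = 4 * P := by
    have := e 2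
    rw [show n - 1 + ((2 : ℕ) : ℤ) = n + 1 by push_cast; ring] at this
    rw [this]; ring
  have e2 : (2 : ℝ) ^ (n + 2) = 8 * P := by
    have := e 3
    rw [show n - 1 + ((3 : ℕ) : ℤ) = n + 2 by push_cast; ring] at this
    rw [this]; ring
  have e3 : (2 : ℝ) ^ (n + 3) = 16 * P := by
    have := e 4
    rw [show n - 1 + ((4 : ℕ) : ℤ) = n + 3 by push_cast; ring] at this
    rw [this]; ring
  have hy1 : P < y := by rw [hP]; exact hyn.1
  have hy2 : y < 2 * P := by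
    rw [← e0]
    exact lt_of_le_of_ne hyn.2 (h1 n)
  have hbP : b * P ≤ 1 / 6 * P := by gcongr
  -- one child of every point below
  have hone : ∀ (z : ℝ) (m : ℤ), (2 : ℝ) ^ m * b < z → z < (2 : ℝ) ^ (m - 1) → 1 ≤ cc b z := by
    intro z m h3 h4
    exact le_cw (fun _ => 1) z m h3 h4
  by_cases hc : y < 4 * b * 2 ^ n
  · -- one child with two children
    have h3 : cc b (2 ^ (n + 1) - y) ≤ cw b (cc b) y :=
      le_cw (cc b) y (n + 1) (by rw [e1]; linarith) (by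
        rw [show n + 1 - 1 = n by ring, e0]
        exact hy2)
    refine le_trans ?_ h3
    have h4 := le_cw2 (b := b) (fun _ => (1 : ℝ≥0∞)) (2 ^ (n + 1) - y) (n + 2) (n + 3) (by omega)
      (by rw [e1, e2]; linarith) (by
        rw [show n + 2 - 1 = n + 1 by ring, e1]
        linarith) (by
        rw [e1, e3]
        rw [e0] at hc
        nlinarith) (by
        rw [show n + 3 - 1 = n + 2 by ring, e1, e2]
        linarith)
    refine le_trans (le_of_eq ?_) h4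
    norm_num
  · -- two children
    have hc' : 4 * b * 2 ^ n < y := lt_of_le_of_ne (not_lt.1 hc) (h2 n).symm
    rw [e0] at hc'
    have h3 := le_cw2 (b := b) (cc b) y (n + 1) (n + 2) (by omega)
      (by rw [e1]; linarith) (by
        rw [show n + 1 - 1 = n by ring, e0]
        exact hy2) (by rw [e2]; linarith) (by
        rw [show n + 2 - 1 = n + 1 by ring, e1]
        linarith)
    refine le_trans ?_ h3
    have h4 : 1 ≤ cc b (2 ^ (n + 1) - y) := hone _ (n + 2) (by rw [e1, e2]; linarith) (by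
      rw [show n + 2 - 1 = n + 1 by ring, e1]
      linarith)
    have h5 : 1 ≤ cc b (2 ^ (n + 2) - y) := hone _ (n + 3) (by rw [e2, e3]; linarith) (by
      rw [show n + 3 - 1 = n + 2 by ring, e2]
      linarith)
    calc (2 : ℝ≥0∞) = 1 + 1 := by norm_num
      _ ≤ _ := add_le_add h4 h5

lemma ae_good (b : ℝ) : ∀ᵐ y : ℝ, 0 < |y| ∧ (∀ n : ℤ, |y| ≠ 2 ^ n) ∧ ∀ n : ℤ, |y| ≠ 4 * b * 2 ^ n := by
  have hnull : ∀ c : ℝ, ∀ᵐ y : ℝ, |y| ≠ c := by
    intro c
    rw [ae_iff]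
    simp only [not_not]
    refine measure_mono_null (t := {c, -c}) ?_ (Set.Finite.measure_zero (by simp) _)
    intro y hy
    rcases abs_choice y with h | h
    · left
      rw [← h]
      exact hy
    · right
      have : |y| = c := hy
      rw [mem_singleton_iff]
      linarith
  have h0 : ∀ᵐ y : ℝ, ∀ n : ℤ, |y| ≠ 2 ^ n := ae_all_iff.2 fun n => hnull _
  have h1 : ∀ᵐ y : ℝ, ∀ n : ℤ, |y| ≠ 4 * b * 2 ^ n := ae_all_iff.2 fun n => hnull _
  filter_upwards [hnull 0, h0, h1] with y h2 h3 h4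
  exact ⟨lt_of_le_of_ne (abs_nonneg y) h2.symm, h3, h4⟩

include hb in
lemma sq_TT_le (u : ℝ → ℂ) (hu : Measurable u) :
    ∫⁻ x, ‖TT b u x‖ₑ ^ 2 ≤ 2 * ∫⁻ x, ‖u x‖ₑ ^ 2 := by
  have h1 := transfer b (by linarith) (fun _ => 1) measurable_const u hu
  simp only [one_mul] at h1
  rw [h1, ← lintegral_const_mul _ (hu.enorm.pow_const 2)]
  apply lintegral_mono_ae
  filter_upwards [ae_good b] with y hy
  gcongr
  exact cc_le hb |y| hy.1

include hb hb2 in
lemma le_sq_TT2 (u : ℝ → ℂ) (hu : Measurable u) :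
    2 * ∫⁻ x, ‖u x‖ₑ ^ 2 ≤ ∫⁻ x, ‖TT b (TT b u) x‖ₑ ^ 2 := by
  have h1 := transfer b (by linarith) (fun _ => 1) measurable_const (TT b u) (measurable_TT b u hu)
  simp only [one_mul] at h1
  have h2 := transfer b (by linarith) (cc b) (measurable_cc b) u hu
  rw [h1]
  change _ ≤ ∫⁻ y, cc b |y| * ‖TT b u y‖ₑ ^ 2
  rw [h2, ← lintegral_const_mul _ (hu.enorm.pow_const 2)]
  apply lintegral_mono_ae
  filter_upwards [ae_good b] with y hy
  gcongr
  exact cc2_ge hb2 |y| hy.1 hy.2.1 hy.2.2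

lemma toReal_sq (u : ℝ → ℂ) : (eLpNorm u 2 volume).toReal ^ 2 = (∫⁻ x, ‖u x‖ₑ ^ 2).toReal := by
  rw [← eLpNorm_two_sq, ENNReal.toReal_pow]

include hb in
lemma memLp_TT (u : ℝ → ℂ) (hu : Measurable u) (hu2 : MemLp u 2) : MemLp (TT b u) 2 := by
  refine ⟨(measurable_TT b u hu).aestronglyMeasurable, ?_⟩
  have h1 := sq_TT_le hb u hu
  rw [← eLpNorm_two_sq, ← eLpNorm_two_sq] at h1
  have h2 : eLpNorm (TT b u) 2 volume ^ 2 < ⊤ :=
    lt_of_le_of_lt h1 (ENNReal.mul_lt_top (by norm_num) (ENNReal.pow_lt_top hu2.2))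
  by_contra hc
  rw [not_lt_top_iff] at hc
  rw [hc] at h2
  simp at h2

include hb in
lemma norm_TT_le (u : ℝ → ℂ) (hu : Measurable u) (hu2 : MemLp u 2) :
    (eLpNorm (TT b u) 2 volume).toReal ≤ √2 * (eLpNorm u 2 volume).toReal := by
  have h1 := sq_TT_le hb u hu
  have hfin : ∫⁻ x, ‖u x‖ₑ ^ 2 ≠ ⊤ := by
    rw [← eLpNorm_two_sq]
    exact (ENNReal.pow_lt_top hu2.2).ne
  have h2 : (eLpNorm (TT b u) 2 volume).toReal ^ 2 ≤ 2 * (eLpNorm u 2 volume).toReal ^ 2 := by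
    rw [toReal_sq, toReal_sq]
    have := ENNReal.toReal_mono (ENNReal.mul_ne_top (by norm_num) hfin) h1
    rwa [ENNReal.toReal_mul, ENNReal.toReal_ofNat] at this
  apply le_of_sq_le_sq _ (by positivity)
  rw [mul_pow, Real.sq_sqrt (by norm_num)]
  exact h2

include hb hb2 in
lemma le_norm_TT2 (u : ℝ → ℂ) (hu : Measurable u) (hu2 : MemLp u 2) :
    √2 * (eLpNorm u 2 volume).toReal ≤ (eLpNorm (TT b (TT b u)) 2 volume).toReal := by
  have h1 := le_sq_TT2 hb hb2 u hu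
  have h3 := memLp_TT hb (TT b u) (measurable_TT b u hu) (memLp_TT hb u hu hu2)
  have hfin : ∫⁻ x, ‖TT b (TT b u) x‖ₑ ^ 2 ≠ ⊤ := by
    rw [← eLpNorm_two_sq]
    exact (ENNReal.pow_lt_top h3.2).ne
  have h2 : 2 * (eLpNorm u 2 volume).toReal ^ 2 ≤ (eLpNorm (TT b (TT b u)) 2 volume).toReal ^ 2 := by
    rw [toReal_sq, toReal_sq]
    have := ENNReal.toReal_mono hfin h1
    rwa [ENNReal.toReal_mul, ENNReal.toReal_ofNat] at this
  apply le_of_sq_le_sq _ ENNReal.toReal_nonneg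
  rw [mul_pow, Real.sq_sqrt (by norm_num)]
  exact h2

lemma toReal_add_le (u v : ℝ → ℂ) (hu : MemLp u 2) (hv : MemLp v 2) :
    (eLpNorm (u + v) 2 volume).toReal ≤ (eLpNorm u 2 volume).toReal + (eLpNorm v 2 volume).toReal := by
  rw [← ENNReal.toReal_add hu.2.ne hv.2.ne]
  exact ENNReal.toReal_mono (ENNReal.add_ne_top.2 ⟨hu.2.ne, hv.2.ne⟩)
    (eLpNorm_add_le hu.1 hv.1 (by norm_num))

include hb hb2 in
/-- The two sided bound. -/
theorem two_sided (u : ℝ → ℂ) (hu : Measurable u) (hu2 : MemLp u 2) :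
    (√2 - 1) ^ 2 * (eLpNorm u 2 volume).toReal ≤ (eLpNorm (u + TT b u) 2 volume).toReal ∧
    (eLpNorm (u + TT b u) 2 volume).toReal ≤ (1 + √2) * (eLpNorm u 2 volume).toReal := by
  have hTu := memLp_TT hb u hu hu2
  have hTm := measurable_TT b u hu
  have hs : MemLp (u + TT b u) 2 := hu2.add hTu
  have hsm : Measurable (u + TT b u) := hu.add hTm
  have hTs := memLp_TT hb _ hsm hs
  set a := (eLpNorm u 2 volume).toReal with ha
  set d := (eLpNorm (u + TT b u) 2 volume).toReal with hd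
  have h1 := norm_TT_le hb u hu hu2
  have h2 := norm_TT_le hb _ hsm hs
  have h3 := le_norm_TT2 hb hb2 u hu hu2
  rw [← ha] at h1 h3
  rw [← hd] at h2
  have h4 : TT b (TT b u) = u + (TT b (u + TT b u) - (u + TT b u)) := by
    rw [TT_add]
    funext x
    simp only [Pi.add_apply, Pi.sub_apply]
    ring
  have h5 : (eLpNorm (TT b (TT b u)) 2 volume).toReal ≤ a + (√2 * d + d) := by
    rw [h4]
    refine (toReal_add_le u _ hu2 (hTs.sub hs)).trans ?_
    gcongr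
    have h6 : TT b (u + TT b u) - (u + TT b u) = TT b (u + TT b u) + -(u + TT b u) := by
      rw [sub_eq_add_neg]
    rw [h6]
    refine (toReal_add_le _ _ hTs hs.neg).trans ?_
    rw [eLpNorm_neg, ← hd]
    linarith
  have hs2 : √2 ^ 2 = 2 := Real.sq_sqrt (by norm_num)
  have hs1 : 1 < √2 := by
    rw [Real.lt_sqrt (by norm_num)]
    norm_num
  constructor
  · have h7 : (√2 - 1) * a ≤ (√2 + 1) * d := by nlinarith
    have h8 : (√2 - 1) * ((√2 - 1) * a) ≤ (√2 - 1) * ((√2 + 1) * d) :=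
      mul_le_mul_of_nonneg_left h7 (by linarith)
    have h9 : (√2 - 1) * ((√2 + 1) * d) = d := by
      have : (√2 - 1) * ((√2 + 1) * d) = (√2 ^ 2 - 1) * d := by ring
      rw [this, hs2]
      ring
    rw [h9] at h8
    linarith [h8]
  · refine (toReal_add_le u _ hu2 hTu).trans ?_
    rw [← ha]
    linarith

end

end Q83.Psi
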