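import Pool.Agent.Q83.Psi.Bounds
import Pool.Agent.Q83.Msf

/-!
The sum of the squares of the wavelet coefficients.
-/

set_option autoImplicit false
open MeasureTheory Filter Topology Set
open scoped ENNReal NNReal Real FourierTransform
open Pool.Agent.Helper704 Pool.Agent.Helper704.RW

namespace Q83.Psi

/-- The frequency support. -/
def Om (b : ℝ) : Set ℝ := {x | b < |x| ∧ |x| < 1}

lemma measurableSet_Om (b : ℝ) : MeasurableSet (Om b) := by
  have h : Measurable (fun x : ℝ => |x|) := continuous_abs.measurable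
  exact (measurableSet_lt measurable_const h).inter (measurableSet_lt h measurable_const)

lemma Om_sub (b : ℝ) (_hb : 0 < b) : Om b ⊆ Ioo (-1) 1 := by
  intro x hx
  exact abs_lt.1 hx.2

lemma vol_Om (b : ℝ) (hb : 0 < b) : volume (Om b) ≠ ⊤ :=
  (lt_of_le_of_lt (measure_mono (Om_sub b hb)) (by rw [Real.volume_Ioo]; exact ENNReal.ofReal_lt_top)).ne

/-- The dilated piece. -/
noncomputable def vv (b : ℝ) (u : ℝ → ℂ) (j : ℤ) (η : ℝ) : ℂ := (Om b).indicator (fun η => u (2 ^ j * η)) η

/-- The periodization. -/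
noncomputable def PP (b : ℝ) (u : ℝ → ℂ) (j : ℤ) (η : ℝ) : ℂ := vv b u j η + vv b u j (η - 1)

lemma measurable_vv (b : ℝ) (u : ℝ → ℂ) (hu : Measurable u) (j : ℤ) : Measurable (vv b u j) :=
  (hu.comp (measurable_const.mul measurable_id)).indicator (measurableSet_Om b)

lemma memLp_dil (u : ℝ → ℂ) (hu : MemLp u 2 volume) (j : ℤ) : MemLp (fun η => u ((2 : ℝ) ^ j * η)) 2 volume := by
  have := memLp_wco (dy j) 0 (wT (dy j)) (wt_wT _) hu
  have h3 : (fun η => u ((2 : ℝ) ^ j * η)) =
      fun x => ((Real.sqrt ((2:ℝ) ^ j))⁻¹ : ℂ) * (wT (dy j) x * u (dy j x - 0)) := by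
    funext x
    simp only [wT, adet_dy, dy_apply, sub_zero]
    rw [← mul_assoc, inv_mul_cancel₀, one_mul]
    have : Real.sqrt ((2:ℝ) ^ j) ≠ 0 := (Real.sqrt_pos.2 (by positivity)).ne'
    exact_mod_cast this
  rw [h3]
  exact this.const_mul _

lemma memLp_vv (b : ℝ) (u : ℝ → ℂ) (hu : MemLp u 2 volume) (j : ℤ) : MemLp (vv b u j) 2 volume :=
  (memLp_dil u hu j).indicator (measurableSet_Om b)

lemma memLp_PP (b : ℝ) (u : ℝ → ℂ) (hu : MemLp u 2 volume) (j : ℤ) : MemLp (PP b u j) 2 volume := by
  apply (memLp_vv b u hu j).add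
  exact (memLp_vv b u hu j).comp_measurePreserving (measurePreserving_sub_right volume 1)

lemma norm_conj_ex (k : ℤ) (η : ℝ) : ‖(starRingEnd ℂ) (ex k η)‖ = 1 := by
  rw [RCLike.norm_conj, norm_ex]

lemma integrable_conj_vv (b : ℝ) (hb : 0 < b) (u : ℝ → ℂ) (hu : MemLp u 2 volume) (j k : ℤ) :
    Integrable (fun η => ex k η * vv b u j η) := by
  have h1 : Integrable (vv b u j) := by
    have h2 : MemLp (vv b u j) 1 (volume.restrict (Om b)) := by
      haveI : IsFiniteMeasure (volume.restrict (Om b)) :=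
        ⟨by rw [Measure.restrict_apply_univ]; exact (vol_Om b hb).lt_top⟩
      exact ((memLp_vv b u hu j).restrict (Om b)).mono_exponent (by norm_num)
    rw [memLp_one_iff_integrable] at h2
    have h3 : vv b u j = (Om b).indicator (vv b u j) := by
      unfold vv
      rw [indicator_indicator, inter_self]
    rw [h3, integrable_indicator_iff (measurableSet_Om b)]
    exact h2
  have h4 := h1.bdd_mul (c := 1) (f := ex k) ((measurable_ex k).aestronglyMeasurable)
    (Eventually.of_forall fun x => (norm_ex k x).le)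
  exact h4

lemma ex_sub_one (k : ℤ) (η : ℝ) : ex k (η - 1) = ex k η := by
  have := ex_add_int k η (-1)
  push_cast at this
  rw [← sub_eq_add_neg] at this
  exact this

/-- The coefficient as an integral over the unit interval. -/
lemma integral_vv (b : ℝ) (hb : 0 < b) (u : ℝ → ℂ) (hu : MemLp u 2 volume) (j k : ℤ) :
    ∫ η, ex k η * vv b u j η = ∫ η in (0 : ℝ)..1, ex k η * PP b u j η := by
  have hI := integrable_conj_vv b hb u hu j k
  have h1 : ∫ η, ex k η * vv b u j η = ∫ η in (-1 : ℝ)..1, ex k η * vv b u j η := by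
    rw [intervalIntegral.integral_of_le (by norm_num)]
    symm
    apply setIntegral_eq_integral_of_forall_compl_eq_zero
    intro x hx
    unfold vv
    rw [indicator_of_notMem, mul_zero]
    intro h
    have := Om_sub b hb h
    exact hx ⟨this.1, this.2.le⟩
  rw [h1, ← intervalIntegral.integral_add_adjacent_intervals (b := 0) hI.intervalIntegrable
    hI.intervalIntegrable]
  have h2 : ∫ η in (-1 : ℝ)..0, ex k η * vv b u j η =
      ∫ η in (0 : ℝ)..1, ex k η * vv b u j (η - 1) := by
    have h3 := intervalIntegral.integral_comp_sub_right (a := (0 : ℝ)) (b := 1)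
      (fun η => ex k η * vv b u j η) 1
    rw [show (0 : ℝ) - 1 = -1 by norm_num, show (1 : ℝ) - 1 = 0 by norm_num] at h3
    rw [← h3]
    apply intervalIntegral.integral_congr
    intro x _
    simp only
    rw [ex_sub_one]
  rw [h2, add_comm, ← intervalIntegral.integral_add hI.intervalIntegrable]
  · apply intervalIntegral.integral_congr
    intro x _
    simp only [PP]
    ring
  · have h5 := hI.comp_sub_right (1 : ℝ)
    have h6 : (fun η => ex k (η - 1) * vv b u j (η - 1)) = fun η => ex k η * vv b u j (η - 1) := by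
      funext η
      rw [ex_sub_one]
    rw [h6] at h5
    exact h5.intervalIntegrable

/-- Parseval on one level. -/
lemma hasSum_level (b : ℝ) (hb : 0 < b) (u : ℝ → ℂ) (hu : MemLp u 2 volume) (j : ℤ) :
    HasSum (fun k : ℤ => ‖∫ η, ex (-k) η * vv b u j η‖ ^ 2) (∫ η in (0 : ℝ)..1, ‖PP b u j η‖ ^ 2) := by
  have h1 := hasSum_sq_fourierCoeffOn (f := PP b u j) (a := 0) (b := 1) one_pos
    ((memLp_PP b u hu j).restrict _)
  have h2 : ∀ n : ℤ, fourierCoeffOn one_pos (PP b u j) n = ∫ η, ex n η * vv b u j η := by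
    intro n
    rw [fourierCoeffOn_eq_integral, integral_vv b hb u hu j n]
    rw [sub_zero, one_div_one, one_smul]
    apply intervalIntegral.integral_congr
    intro x _
    simp only
    rw [fourier_coe_apply, smul_eq_mul]
    congr 1
    unfold ex
    congr 1
    push_cast
    ring
  simp_rw [h2] at h1
  rw [sub_zero, inv_one, one_smul] at h1
  exact (Equiv.neg ℤ).hasSum_iff.2 h1

end Q83.Psi
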