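import Pool.Agent.Q83.Psi.Sum

/-!
The sum of the squares of the wavelet coefficients, second part.
-/

set_option autoImplicit false
open MeasureTheory Filter Topology Set
open scoped ENNReal NNReal Real FourierTransform
open Pool.Agent.Helper704 Pool.Agent.Helper704.RW

namespace Q83.Psi

/-- The frequency profile as an element of the Hilbert space. -/
noncomputable def phi (b : ℝ) (hb : 0 < b) : HH :=
  (Q83.Msf.memLp_ind' (measurableSet_Om b) (vol_Om b hb)).toLp _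

lemma conj_ex (k : ℤ) (η : ℝ) : (starRingEnd ℂ) (ex k η) = ex (-k) η := by
  have := Q83.Msf.ex_conj (-k) η
  rwa [neg_neg] at this

lemma inner_Dh (b : ℝ) (hb : 0 < b) (U : HH) (j k : ℤ) :
    inner ℂ (Dh (j, k) (phi b hb)) U =
      ((Real.sqrt ((2 : ℝ) ^ j) : ℝ) : ℂ) * ∫ η, ex (-k) η * vv b U j η := by
  unfold phi
  rw [Dh_toLp]
  have h2 := Q83.Msf.inner_toLp' _ _
    (memLp_fq (j, k) (Q83.Msf.memLp_ind' (measurableSet_Om b) (vol_Om b hb))) (Lp.memLp U)
  rw [Lp.toLp_coeFn] at h2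
  rw [h2]
  have h3 : ∀ ξ, (starRingEnd ℂ) (fq (j, k) ((Om b).indicator fun _ => 1) ξ) * U ξ =
      (fun η => ((Real.sqrt ((2 : ℝ) ^ (-j)) : ℝ) : ℂ) * (ex (-k) η * vv b U j η))
        (dy (-j) ξ - 0) := by
    intro ξ
    unfold fq vv
    simp only [dy_apply, sub_zero]
    by_cases h : (2 : ℝ) ^ (-j) * ξ ∈ Om b
    · rw [indicator_of_mem h, indicator_of_mem h, map_mul, map_mul, Complex.conj_ofReal, map_one,
        conj_ex, ← mul_assoc ((2 : ℝ) ^ j), ← zpow_add₀ (by norm_num), add_neg_cancel, zpow_zero,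
        one_mul]
      ring
    · rw [indicator_of_notMem h, indicator_of_notMem h]
      simp
  simp_rw [h3]
  rw [integral_aff (dy (-j)) 0 (fun η => ((Real.sqrt ((2 : ℝ) ^ (-j)) : ℝ) : ℂ) *
    (ex (-k) η * vv b U j η)), integral_const_mul, adet_dy, ← zpow_neg, neg_neg, Complex.real_smul,
    ← mul_assoc]
  congr 1
  rw [← Complex.ofReal_mul]
  congr 1
  rw [zpow_neg, Real.sqrt_inv]
  have h4 : (0 : ℝ) < 2 ^ j := by positivity
  have h5 : 0 < Real.sqrt ((2 : ℝ) ^ j) := Real.sqrt_pos.2 h4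
  rw [← div_eq_mul_inv, div_eq_iff h5.ne', Real.mul_self_sqrt h4.le]

lemma level_tsum (b : ℝ) (hb : 0 < b) (U : HH) (j : ℤ) :
    ∑' k : ℤ, ENNReal.ofReal (‖inner ℂ (Dh (j, k) (phi b hb)) U‖ ^ 2) =
      ENNReal.ofReal ((2 : ℝ) ^ j) * ∫⁻ η in Ioc (0 : ℝ) 1, ‖PP b U j η‖ₑ ^ 2 := by
  have h1 := hasSum_level b hb U (Lp.memLp U) j
  have h2 : ∀ k : ℤ, ‖inner ℂ (Dh (j, k) (phi b hb)) U‖ ^ 2 =
      (2 : ℝ) ^ j * ‖∫ η, ex (-k) η * vv b U j η‖ ^ 2 := by
    intro k
    rw [inner_Dh, norm_mul, mul_pow, Complex.norm_real, Real.norm_eq_abs, sq_abs,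
      Real.sq_sqrt (by positivity)]
  simp_rw [h2]
  have h3 := h1.mul_left ((2 : ℝ) ^ j)
  rw [← ENNReal.ofReal_tsum_of_nonneg (fun k => by positivity) h3.summable, h3.tsum_eq,
    ENNReal.ofReal_mul (by positivity)]
  congr 1
  rw [intervalIntegral.integral_of_le zero_le_one,
    ofReal_integral_eq_lintegral_ofReal]
  · apply lintegral_congr
    intro x
    rw [ENNReal.ofReal_pow (norm_nonneg _), ofReal_norm]
  · exact (memLp_two_iff_integrable_sq_norm ((memLp_PP b U (Lp.memLp U) j).restrict _).1).1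
      ((memLp_PP b U (Lp.memLp U) j).restrict _)
  · exact Eventually.of_forall fun x => by positivity

/-- The values of the periodization. -/
lemma PP_right (b : ℝ) (hb : 0 < b) (hb2 : b < 1 / 2) (u : ℝ → ℂ) (j : ℤ) (η : ℝ) (h1 : 1 / 2 < η)
    (h2 : η < 1) : PP b u j η = (u + TT b u) (2 ^ j * η) := by
  have hp : (0 : ℝ) < 2 ^ j := by positivity
  have hj : (2 : ℝ) ^ j = 2 * 2 ^ (j - 1) := by
    rw [zpow_sub_one₀ (by norm_num)]
    field_simp
  have hr : 2 ^ j * η ∈ An j := by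
    constructor
    · nlinarith [show (0 : ℝ) < 2 ^ (j - 1) by positivity]
    · nlinarith
  rw [Pi.add_apply, TT_pos b u hr]
  unfold PP vv
  have h3 : η ∈ Om b := by
    refine ⟨?_, ?_⟩
    · rw [abs_of_pos (by linarith)]
      linarith
    · rw [abs_of_pos (by linarith)]
      exact h2
  rw [indicator_of_mem h3]
  congr 1
  by_cases h4 : 2 ^ j * η < 2 ^ j * (1 - b)
  · rw [if_pos h4]
    have h5 : η < 1 - b := lt_of_mul_lt_mul_left h4 hp.le
    have h6 : η - 1 ∈ Om b := by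
      refine ⟨?_, ?_⟩
      · rw [abs_of_neg (by linarith)]
        linarith
      · rw [abs_of_neg (by linarith)]
        linarith
    rw [indicator_of_mem h6]
    congr 1
    ring
  · rw [if_neg h4]
    apply indicator_of_notMem
    intro h
    apply h4
    have h6 := h.1
    rw [abs_of_neg (by linarith)] at h6
    exact mul_lt_mul_of_pos_left (by linarith) hp

lemma PP_left (b : ℝ) (hb : 0 < b) (hb2 : b < 1 / 2) (u : ℝ → ℂ) (j : ℤ) (η : ℝ) (h1 : 1 / 2 < η)
    (h2 : η < 1) : PP b u j (1 - η) = (u + TT b u) (-(2 ^ j * η)) := by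
  have hp : (0 : ℝ) < 2 ^ j := by positivity
  have hj : (2 : ℝ) ^ j = 2 * 2 ^ (j - 1) := by
    rw [zpow_sub_one₀ (by norm_num)]
    field_simp
  have hr : 2 ^ j * η ∈ An j := by
    constructor
    · nlinarith [show (0 : ℝ) < 2 ^ (j - 1) by positivity]
    · nlinarith
  rw [Pi.add_apply, TT_neg b u hr]
  unfold PP vv
  have h3 : 1 - η - 1 ∈ Om b := by
    rw [show 1 - η - 1 = -η by ring]
    refine ⟨?_, ?_⟩
    · rw [abs_neg, abs_of_pos (by linarith)]
      linarith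
    · rw [abs_neg, abs_of_pos (by linarith)]
      exact h2
  rw [indicator_of_mem h3, add_comm]
  congr 1
  · congr 1
    ring
  by_cases h4 : 2 ^ j * η < 2 ^ j * (1 - b)
  · rw [if_pos h4]
    have h5 : η < 1 - b := lt_of_mul_lt_mul_left h4 hp.le
    have h6 : 1 - η ∈ Om b := by
      refine ⟨?_, ?_⟩
      · rw [abs_of_pos (by linarith)]
        linarith
      · rw [abs_of_pos (by linarith)]
        linarith
    rw [indicator_of_mem h6]
    congr 1
    ring
  · rw [if_neg h4]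
    apply indicator_of_notMem
    intro h
    apply h4
    have h6 := h.1
    rw [abs_of_pos (by linarith)] at h6
    exact mul_lt_mul_of_pos_left (by linarith) hp

lemma level_lintegral (b : ℝ) (hb : 0 < b) (hb2 : b < 1 / 2) (u : ℝ → ℂ) (hu : Measurable u) (j : ℤ) :
    ENNReal.ofReal ((2 : ℝ) ^ j) * ∫⁻ η in Ioc (0 : ℝ) 1, ‖PP b u j η‖ₑ ^ 2 =
      ∫⁻ r in An j, (‖(u + TT b u) r‖ₑ ^ 2 + ‖(u + TT b u) (-r)‖ₑ ^ 2) := by
  have hp : (0 : ℝ) < 2 ^ j := by positivity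
  have hj : (2 : ℝ) ^ j = 2 * 2 ^ (j - 1) := by
    rw [zpow_sub_one₀ (by norm_num)]
    field_simp
  set G : ℝ → ℝ≥0∞ := fun r => ‖(u + TT b u) r‖ₑ ^ 2 with hG
  have hGm : Measurable G := (hu.add (measurable_TT b u hu)).enorm.pow_const 2
  set F : ℝ → ℝ≥0∞ := (Ioo ((2 : ℝ) ^ (j - 1)) (2 ^ j)).indicator fun r => G r + G (-r) with hF
  set F1 : ℝ → ℝ≥0∞ := (Ioo (1 / 2 : ℝ) 1).indicator fun η => G (2 ^ j * η) with hF1
  set F2 : ℝ → ℝ≥0∞ := (Ioo (1 / 2 : ℝ) 1).indicator fun η => G (-(2 ^ j * η)) with hF2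
  have hF1m : Measurable F1 := (hGm.comp (measurable_const.mul measurable_id)).indicator measurableSet_Ioo
  have hF2m : Measurable F2 :=
    (hGm.comp (measurable_const.mul measurable_id).neg).indicator measurableSet_Ioo
  have h1 : ∫⁻ η in Ioc (0 : ℝ) 1, ‖PP b u j η‖ₑ ^ 2 = ∫⁻ η, (F1 η + F2 (1 - η)) := by
    rw [← lintegral_indicator measurableSet_Ioc]
    apply lintegral_congr_ae
    have hnull : ∀ c : ℝ, ∀ᵐ y : ℝ, y ≠ c := by
      intro c
      rw [ae_iff]
      simp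
    filter_upwards [hnull 0, hnull 1, hnull (1 / 2)] with η n0 n1 n2
    by_cases h : η ∈ Ioc (0 : ℝ) 1
    · rw [indicator_of_mem h]
      rcases lt_or_gt_of_ne n2 with h3 | h3
      · have h4 : η ∉ Ioo (1 / 2 : ℝ) 1 := fun h => by linarith [h.1]
        have h5 : 1 - η ∈ Ioo (1 / 2 : ℝ) 1 := ⟨by linarith, by linarith [h.1]⟩
        rw [hF1, hF2, indicator_of_notMem h4, indicator_of_mem h5, zero_add, hG]
        simp only
        rw [← PP_left b hb hb2 u j (1 - η) h5.1 h5.2, sub_sub_cancel]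
      · have h4 : η ∈ Ioo (1 / 2 : ℝ) 1 := ⟨h3, lt_of_le_of_ne h.2 n1⟩
        have h5 : 1 - η ∉ Ioo (1 / 2 : ℝ) 1 := fun h => by linarith [h.1]
        rw [hF1, hF2, indicator_of_mem h4, indicator_of_notMem h5, add_zero, hG]
        simp only
        rw [← PP_right b hb hb2 u j η h4.1 h4.2]
    · rw [indicator_of_notMem h]
      have h4 : η ∉ Ioo (1 / 2 : ℝ) 1 := fun h' => h ⟨by linarith [h'.1], h'.2.le⟩
      have h5 : 1 - η ∉ Ioo (1 / 2 : ℝ) 1 := fun h' => h ⟨by linarith [h'.2], by linarith [h'.1]⟩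
      rw [hF1, hF2, indicator_of_notMem h4, indicator_of_notMem h5, zero_add]
  rw [h1, lintegral_add_left hF1m, lintegral_sub_left_eq_self F2 1, ← lintegral_add_left hF1m]
  have h2 : ∀ η, F1 η + F2 η = F (dy j η - 0) := by
    intro η
    rw [dy_apply, sub_zero]
    by_cases h : η ∈ Ioo (1 / 2 : ℝ) 1
    · have h' : 2 ^ j * η ∈ Ioo ((2 : ℝ) ^ (j - 1)) (2 ^ j) := by
        constructor
        · nlinarith [h.1, show (0 : ℝ) < 2 ^ (j - 1) by positivity]
        · nlinarith [h.2]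
      rw [hF1, hF2, hF, indicator_of_mem h, indicator_of_mem h, indicator_of_mem h']
    · have h' : 2 ^ j * η ∉ Ioo ((2 : ℝ) ^ (j - 1)) (2 ^ j) := by
        intro h3
        apply h
        have h4 := h3.1
        have h5 := h3.2
        have hq : (0 : ℝ) < 2 ^ (j - 1) := by positivity
        rw [hj] at h4 h5
        constructor
        · nlinarith
        · nlinarith
      rw [hF1, hF2, hF, indicator_of_notMem h, indicator_of_notMem h, indicator_of_notMem h',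
        zero_add]
  simp_rw [h2]
  rw [lintegral_aff (dy j) 0 F, adet_dy, ← mul_assoc, ← ENNReal.ofReal_mul hp.le,
    mul_inv_cancel₀ hp.ne', ENNReal.ofReal_one, one_mul, hF, lintegral_indicator measurableSet_Ioo]
  unfold An
  exact setLIntegral_congr Ioo_ae_eq_Ioc

/-- The total energy. -/
theorem total (b : ℝ) (hb : 0 < b) (hb2 : b < 1 / 2) (U : HH) :
    ∑' q : ℤ × ℤ, ENNReal.ofReal (‖inner ℂ (Dh q (phi b hb)) U‖ ^ 2) =
      ∫⁻ x, ‖((U : ℝ → ℂ) + TT b U) x‖ₑ ^ 2 := by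
  have hU : Measurable (U : ℝ → ℂ) := (Lp.stronglyMeasurable U).measurable
  rw [ENNReal.tsum_prod']
  have h1 : ∀ j : ℤ, ∑' k : ℤ, ENNReal.ofReal (‖inner ℂ (Dh (j, k) (phi b hb)) U‖ ^ 2) =
      ∫⁻ r in An j, (‖((U : ℝ → ℂ) + TT b U) r‖ₑ ^ 2 + ‖((U : ℝ → ℂ) + TT b U) (-r)‖ₑ ^ 2) := by
    intro j
    rw [level_tsum, level_lintegral b hb hb2 U hU j]
  simp_rw [h1]
  rw [← lintegral_An, ← lintegral_sym]
  exact (hU.add (measurable_TT b U hU)).enorm.pow_const 2

end Q83.Psi
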