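import Mathlib

/-!
The operator of the frequency tree.
-/

set_option autoImplicit false
open MeasureTheory Filter Topology Set
open scoped ENNReal NNReal Real

namespace Q83.Psi

/-- The dyadic annulus (positive part). -/
def An (j : ℤ) : Set ℝ := Ioc ((2 : ℝ) ^ (j - 1)) (2 ^ j)

lemma measurableSet_An (j : ℤ) : MeasurableSet (An j) := measurableSet_Ioc

/-- The level of a point. -/
noncomputable def lev (r : ℝ) : ℤ := Int.clog 2 |r|

lemma lev_neg (r : ℝ) : lev (-r) = lev r := by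
  unfold lev
  rw [abs_neg]

lemma mem_An_lev (r : ℝ) (hr : 0 < r) : r ∈ An (lev r) := by
  unfold lev An
  rw [abs_of_pos hr]
  exact ⟨by exact_mod_cast Int.zpow_pred_clog_lt_self (b := 2) (by norm_num) hr,
    by exact_mod_cast Int.self_le_zpow_clog (b := 2) (by norm_num) r⟩

lemma An_pos {j : ℤ} {r : ℝ} (hr : r ∈ An j) : 0 < r := lt_trans (by positivity) hr.1

lemma An_unique {i j : ℤ} {r : ℝ} (hi : r ∈ An i) (hj : r ∈ An j) : i = j := by
  have h1 : (2 : ℝ) ^ (i - 1) < 2 ^ j := lt_of_lt_of_le hi.1 hj.2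
  have h2 : (2 : ℝ) ^ (j - 1) < 2 ^ i := lt_of_lt_of_le hj.1 hi.2
  rw [zpow_lt_zpow_iff_right₀ (by norm_num)] at h1 h2
  omega

lemma lev_eq {j : ℤ} {r : ℝ} (hr : r ∈ An j) : lev r = j :=
  An_unique (mem_An_lev r (An_pos hr)) hr

lemma iUnion_An : (⋃ j, An j) = Ioi (0 : ℝ) := by
  ext r
  rw [mem_iUnion]
  exact ⟨fun ⟨j, hj⟩ => An_pos hj, fun hr => ⟨lev r, mem_An_lev r hr⟩⟩

lemma measurable_lev : Measurable lev := by
  apply measurable_to_countable'
  intro j
  have h1 : lev ⁻¹' {j} = {r : ℝ | |r| ∈ An j} ∪ ({0} ∩ lev ⁻¹' {j}) := by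
    ext r
    simp only [mem_preimage, mem_singleton_iff, mem_union, mem_ofPred_eq, mem_inter_iff]
    constructor
    · intro h
      by_cases hr : r = 0
      · exact Or.inr ⟨hr, h⟩
      · left
        have := mem_An_lev |r| (abs_pos.2 hr)
        rw [← h]
        unfold lev at this ⊢
        rwa [abs_abs] at this
    · rintro (h | h)
      · have := lev_eq h
        unfold lev at this ⊢
        rwa [abs_abs] at this
      · exact h.2
  rw [h1]
  apply MeasurableSet.union
  · exact (measurableSet_An j).preimage continuous_abs.measurable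
  · exact (subsingleton_singleton.anti inter_subset_left).measurableSet

lemma lintegral_An (K : ℝ → ℝ≥0∞) : ∫⁻ r in Ioi (0 : ℝ), K r = ∑' j : ℤ, ∫⁻ r in An j, K r := by
  rw [← iUnion_An]
  apply lintegral_iUnion (fun j => measurableSet_Ioc)
  intro i j hij
  rw [Function.onFun, Set.disjoint_left]
  intro r h1 h2
  exact hij (An_unique h1 h2)

lemma lintegral_sym (F : ℝ → ℝ≥0∞) (hF : Measurable F) :
    ∫⁻ x, F x = ∫⁻ r in Ioi (0 : ℝ), (F r + F (-r)) := by
  rw [lintegral_add_left hF, ← lintegral_add_compl F (measurableSet_Ioi : MeasurableSet (Ioi (0 : ℝ)))]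
  congr 1
  rw [compl_Ioi]
  have h1 := (Measure.measurePreserving_neg (volume : Measure ℝ)).setLIntegral_comp_preimage
    (measurableSet_Iic : MeasurableSet (Iic (0 : ℝ))) hF
  rw [← h1]
  have h2 : (Neg.neg : ℝ → ℝ) ⁻¹' Iic 0 = Ici 0 := by
    ext x
    simp
  rw [h2]
  exact (setLIntegral_congr Ioi_ae_eq_Ici).symm

/-- The tree operator. -/
noncomputable def TT (b : ℝ) (u : ℝ → ℂ) (x : ℝ) : ℂ :=
  if |x| < 2 ^ (lev x) * (1 - b) then (if 0 < x then u (x - 2 ^ (lev x)) else u (x + 2 ^ (lev x)))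
  else 0

lemma measurable_pow_lev : Measurable fun x : ℝ => (2 : ℝ) ^ (lev x) := by
  have h1 : Measurable fun z : ℤ => (2 : ℝ) ^ z := Measurable.of_discrete
  exact h1.comp measurable_lev

lemma measurable_TT (b : ℝ) (u : ℝ → ℂ) (hu : Measurable u) : Measurable (TT b u) := by
  have h1 := measurable_pow_lev
  unfold TT
  refine Measurable.ite (measurableSet_lt continuous_abs.measurable (h1.mul_const _)) ?_
    measurable_const
  exact Measurable.ite (measurableSet_lt measurable_const measurable_id)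
    (hu.comp (measurable_id.sub h1)) (hu.comp (measurable_id.add h1))

lemma TT_add (b : ℝ) (u v : ℝ → ℂ) : TT b (u + v) = TT b u + TT b v := by
  funext x
  simp only [TT, Pi.add_apply]
  split_ifs <;> simp

lemma TT_pos (b : ℝ) (u : ℝ → ℂ) {j : ℤ} {r : ℝ} (hr : r ∈ An j) :
    TT b u r = if r < 2 ^ j * (1 - b) then u (-(2 ^ j - r)) else 0 := by
  unfold TT
  rw [lev_eq hr, abs_of_pos (An_pos hr), if_pos (An_pos hr)]
  congr 2
  ring

lemma TT_neg (b : ℝ) (u : ℝ → ℂ) {j : ℤ} {r : ℝ} (hr : r ∈ An j) :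
    TT b u (-r) = if r < 2 ^ j * (1 - b) then u (2 ^ j - r) else 0 := by
  unfold TT
  rw [lev_neg, lev_eq hr, abs_neg, abs_of_pos (An_pos hr),
    if_neg (show ¬ (0 : ℝ) < -r by linarith [An_pos hr])]
  congr 2
  ring

/-- The transferred weight. -/
noncomputable def cw (b : ℝ) (w : ℝ → ℝ≥0∞) (y : ℝ) : ℝ≥0∞ :=
  ∑' j : ℤ, (Ioo (2 ^ j * b) ((2 : ℝ) ^ (j - 1))).indicator (fun y => w (2 ^ j - y)) y

lemma measurable_cw (b : ℝ) (w : ℝ → ℝ≥0∞) (hw : Measurable w) : Measurable (cw b w) := by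
  unfold cw
  apply Measurable.ennreal_tsum
  intro j
  exact (hw.comp (measurable_const.sub measurable_id)).indicator measurableSet_Ioo

theorem transfer (b : ℝ) (hb : 0 < b) (w : ℝ → ℝ≥0∞) (hw : Measurable w) (u : ℝ → ℂ)
    (hu : Measurable u) :
    ∫⁻ x, w |x| * ‖TT b u x‖ₑ ^ 2 = ∫⁻ y, cw b w |y| * ‖u y‖ₑ ^ 2 := by
  have hT := measurable_TT b u hu
  have habs : Measurable fun x : ℝ => |x| := continuous_abs.measurable
  have hm1 : Measurable fun x => w |x| * ‖TT b u x‖ₑ ^ 2 :=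
    (hw.comp habs).mul (hT.enorm.pow_const 2)
  have hm2 : Measurable fun y => cw b w |y| * ‖u y‖ₑ ^ 2 :=
    ((measurable_cw b w hw).comp habs).mul (hu.enorm.pow_const 2)
  rw [lintegral_sym _ hm1, lintegral_sym _ hm2, lintegral_An]
  have h1 : ∀ j : ℤ, ∫⁻ r in An j, (w |r| * ‖TT b u r‖ₑ ^ 2 + w |(-r)| * ‖TT b u (-r)‖ₑ ^ 2) =
      ∫⁻ y in Ioi (0 : ℝ), (Ioo (2 ^ j * b) ((2 : ℝ) ^ (j - 1))).indicator
        (fun y => w (2 ^ j - y)) y * (‖u y‖ₑ ^ 2 + ‖u (-y)‖ₑ ^ 2) := by
    intro j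
    have hj : (2 : ℝ) ^ j = 2 * 2 ^ (j - 1) := by
      rw [zpow_sub_one₀ (by norm_num)]
      field_simp
    have hj0 : (0 : ℝ) < 2 ^ (j - 1) := by positivity
    rw [← lintegral_indicator (measurableSet_An j),
      ← lintegral_indicator measurableSet_Ioi,
      ← lintegral_sub_left_eq_self (fun y => (Ioi (0 : ℝ)).indicator (fun y =>
        (Ioo (2 ^ j * b) ((2 : ℝ) ^ (j - 1))).indicator (fun y => w (2 ^ j - y)) y *
          (‖u y‖ₑ ^ 2 + ‖u (-y)‖ₑ ^ 2)) y) ((2 : ℝ) ^ j)]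
    congr 1
    funext r
    by_cases hr : r ∈ An j
    · rw [indicator_of_mem hr, TT_pos b u hr, TT_neg b u hr, abs_neg, abs_of_pos (An_pos hr)]
      by_cases hr2 : r < 2 ^ j * (1 - b)
      · have h2 : (2 : ℝ) ^ j - r ∈ Ioo (2 ^ j * b) ((2 : ℝ) ^ (j - 1)) := by
          constructor
          · linarith
          · linarith [hr.1]
        have h3 : (2 : ℝ) ^ j - r ∈ Ioi (0 : ℝ) := lt_trans (by positivity) h2.1
        rw [if_pos hr2, if_pos hr2, indicator_of_mem h3, indicator_of_mem h2, sub_sub_cancel,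
          ← mul_add, add_comm]
      · rw [if_neg hr2, if_neg hr2]
        have h2 : (2 : ℝ) ^ j - r ∉ Ioo (2 ^ j * b) ((2 : ℝ) ^ (j - 1)) := by
          intro h
          apply hr2
          linarith [h.1]
        by_cases h4 : (2 : ℝ) ^ j - r ∈ Ioi (0 : ℝ)
        · rw [indicator_of_mem h4, indicator_of_notMem h2]
          simp
        · rw [indicator_of_notMem h4]
          simp
    · rw [indicator_of_notMem hr]
      have h2 : (2 : ℝ) ^ j - r ∉ Ioo (2 ^ j * b) ((2 : ℝ) ^ (j - 1)) := by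
        intro h
        apply hr
        have h3 : 0 < (2 : ℝ) ^ j * b := by positivity
        exact ⟨by linarith [h.2], by linarith [h.1]⟩
      by_cases h4 : (2 : ℝ) ^ j - r ∈ Ioi (0 : ℝ)
      · rw [indicator_of_mem h4, indicator_of_notMem h2]
        simp
      · rw [indicator_of_notMem h4]
  simp only [h1]
  rw [← lintegral_tsum]
  · apply setLIntegral_congr_fun measurableSet_Ioi
    intro y hy
    have hy' : (0 : ℝ) < y := hy
    simp only
    rw [ENNReal.tsum_mul_right, abs_neg, abs_of_pos hy', ← mul_add]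
    rfl
  · intro j
    exact (((hw.comp (measurable_const.sub measurable_id)).indicator measurableSet_Ioo).mul
      ((hu.enorm.pow_const 2).add ((hu.comp measurable_neg).enorm.pow_const 2))).aemeasurable

end Q83.Psi
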